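import Pool.Agent.Helper44.GF.Defs

set_option autoImplicit false

namespace Pool.Agent.Helper44.GF

open Finset

theorem hb_ext {ι : Type} [Fintype ι] (N : (ι → ℝ) → ℝ) (_h0 : ∀ w, 0 ≤ N w)
    (hadd : ∀ w w', N (w + w') ≤ N w + N w') (hhom : ∀ (t : ℝ) w, N (t • w) = |t| * N w)
    (v : ι → ℝ) (hv : 0 < N v) :
    ∃ g : (ι → ℝ) →ₗ[ℝ] ℝ, g v = N v ∧ ∀ w, g w ≤ N w := by
  have hv0 : v ≠ 0 := by
    rintro rfl
    have := hhom 0 (0 : ι → ℝ)
    rw [zero_smul, abs_zero, zero_mul] at this
    linarith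
  obtain ⟨g, hg1, hg2⟩ := exists_extension_of_le_sublinear
    (LinearPMap.mkSpanSingleton v (N v) hv0) N
    (fun c hc x => by rw [hhom, abs_of_pos hc]) hadd (by
      rintro ⟨x, hx⟩
      obtain ⟨t, rfl⟩ := Submodule.mem_span_singleton.mp hx
      have e : (LinearPMap.mkSpanSingleton v (N v) hv0) ⟨t • v, hx⟩ = t • N v :=
        LinearPMap.mkSpanSingleton'_apply _ _ _ _ _
      rw [e, smul_eq_mul]
      show t * N v ≤ N (t • v)
      rw [hhom]
      exact mul_le_mul_of_nonneg_right (le_abs_self t) hv.le)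
  refine ⟨g, ?_, hg2⟩
  have h := hg1 ⟨v, Submodule.mem_span_singleton_self v⟩
  rw [LinearPMap.mkSpanSingleton_apply] at h
  exact h

theorem st_HB : ST_HB := by
  classical
  intro ι _ N h0 hadd hhom hunc v hv
  obtain ⟨g, hgv, hg⟩ := hb_ext N h0 hadd hhom v hv
  set e : ι → ℝ := fun I => g (fun j => if I = j then 1 else 0) with he
  have hge : ∀ w, g w = ∑ I, w I * e I := by
    intro w
    rw [LinearMap.pi_apply_eq_sum_univ g w]
    rfl
  have hkey : ∀ w : ι → ℝ, ∑ I, |e I| * |w I| ≤ N w := by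
    intro w
    have h1 : g (fun I => (if 0 ≤ e I then 1 else -1) * |w I|) = ∑ I, |e I| * |w I| := by
      rw [hge]
      refine Finset.sum_congr rfl fun I _ => ?_
      by_cases h : 0 ≤ e I
      · rw [if_pos h, abs_of_nonneg h]; ring
      · rw [if_neg h, abs_of_neg (not_le.mp h)]; ring
    have h2 : N (fun I => (if 0 ≤ e I then 1 else -1) * |w I|) = N w := by
      apply hunc
      intro I
      rw [abs_mul, abs_abs]
      by_cases h : 0 ≤ e I
      · rw [if_pos h, abs_one, one_mul]
      · rw [if_neg h, abs_neg, abs_one, one_mul]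
    rw [← h1, ← h2]
    exact hg _
  have hsum : ∑ I, |e I| * |v I| = N v := by
    apply le_antisymm (hkey v)
    rw [← hgv, hge]
    refine Finset.sum_le_sum fun I _ => ?_
    rw [mul_comm (|e I|), ← abs_mul]
    exact le_abs_self _
  refine ⟨fun I => |e I| * |v I| / N v, ?_, ?_, ?_, ?_⟩
  · intro I
    positivity
  · rw [← Finset.sum_div, hsum, div_self hv.ne']
  · intro I hI
    simp only
    rw [hI, abs_zero, mul_zero, zero_div]
  · intro w
    rw [Finset.sum_mul]
    refine le_trans (Finset.sum_le_sum fun I _ => ?_) (hkey w)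
    simp only
    by_cases hI : v I = 0
    · rw [hI, abs_zero, mul_zero, zero_div, zero_mul, zero_mul]
      positivity
    · have hI' : 0 < |v I| := abs_pos.mpr hI
      rw [abs_div]
      apply le_of_eq
      field_simp

end Pool.Agent.Helper44.GF
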