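import Pool.Agent.Helper44.GF.Defs

set_option autoImplicit false

namespace Pool.Agent.Helper44.GF

open Finset

theorem st_LOWB (h1 : ST_BOCH) (h2 : ST_SCH) (h3 : ST_CONV) (h4 : ST_MF2) (h5 : ST_MF3) :
    ST_LOWB := by
  intro n m Y ι _ _ _ S a r z d s hM g
  obtain ⟨-, hcomp, hk, -, -⟩ := h4 n m Y ι S a r z d hM.hS
  have hB := h1 (Fin n × Y) (wt S a d r z) (bet S a d r z) (kk S a d r) hcomp hk g
  have hC := h3 n m Y ι S a r z d s hM g
  have hF := h5 n m Y ι S a r z d s hM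
  have hW : ∀ η, 0 ≤ wt S a d r z η := fun η => (hF η).2.2.2.1.le
  have hb : ∀ η x, 0 ≤ bet S a d r z η x := fun η x => ((hF η).2.2.2.2.1 x).le
  have hkk : ∀ η x y, 0 ≤ kk S a d r η x y := fun η x y => ((hF η).2.2.2.2.2.1 x y).le
  have hdir : 0 ≤ dir (wt S a d r z) (bet S a d r z) g := by
    unfold dir
    refine Finset.sum_nonneg fun η _ => mul_nonneg (hW η) (Finset.sum_nonneg fun x _ => ?_)
    exact mul_nonneg (hb η x) (sq_nonneg _)
  have hP2 : 0 ≤ P2 S a r z d g := by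
    unfold P2
    refine Finset.sum_nonneg fun η _ => mul_nonneg (hW η) (Finset.sum_nonneg fun x _ =>
      Finset.sum_nonneg fun y _ => ?_)
    exact mul_nonneg (mul_nonneg (hb η x) (hb η y)) (mul_nonneg (hkk η x y) (sq_nonneg _))
  have hsq : 0 ≤ ∑ η, wt S a d r z η * ∑ x ∈ ηᶜ, bet S a d r z η x ^ 2 * dd g η x ^ 2 := by
    refine Finset.sum_nonneg fun η _ => mul_nonneg (hW η) (Finset.sum_nonneg fun x _ => ?_)
    positivity
  -- splitting of the last sum
  have hsplit : ∑ η, wt S a d r z η * ∑ x ∈ ηᶜ, ∑ y ∈ ηᶜ.erase x,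
      bet S a d r z η x * bet S a d r z η y *
        ((1 - kk S a d r η x y) * (dd g η x * dd g η y) + kk S a d r η x y * dd2 g η x y ^ 2)
      = (∑ η, wt S a d r z η * ∑ x ∈ ηᶜ, ∑ y ∈ ηᶜ.erase x,
          bet S a d r z η x * bet S a d r z η y *
            ((1 - kk S a d r η x y) * (dd g η x * dd g η y))) + P2 S a r z d g := by
    unfold P2
    rw [← Finset.sum_add_distrib]
    refine Finset.sum_congr rfl fun η _ => ?_
    rw [← mul_add, ← Finset.sum_add_distrib]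
    congr 1
    refine Finset.sum_congr rfl fun x _ => ?_
    rw [← Finset.sum_add_distrib]
    refine Finset.sum_congr rfl fun y _ => ?_
    ring
  have hS : -(8 * s / (3 * (1 - s)) * ∑ η, wt S a d r z η *
      ∑ x ∈ ηᶜ, bet S a d r z η x * dd g η x ^ 2 * sch S a r z d η x) ≤
      ∑ η, wt S a d r z η * ∑ x ∈ ηᶜ, ∑ y ∈ ηᶜ.erase x,
          bet S a d r z η x * bet S a d r z η y *
            ((1 - kk S a d r η x y) * (dd g η x * dd g η y)) := by
    rw [Finset.mul_sum, ← Finset.sum_neg_distrib]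
    refine Finset.sum_le_sum fun η _ => ?_
    have h := h2 n m Y ι S a r z d s hM η (fun x => dd g η x)
    have h' := mul_le_mul_of_nonneg_left h (hW η)
    refine le_trans (le_of_eq ?_) h'
    ring
  rw [hB, hsplit]
  have hm : (1 : ℝ) ≤ m := by exact_mod_cast hM.hm
  have hs := hM.hs
  have hs15 : 15 * (m : ℝ) * s ≤ 1 := by
    have h := hM.hsm
    rw [le_div_iff₀ (by positivity)] at h
    linarith
  have hs1 : 0 < 1 - s := by nlinarith
  set D := dir (wt S a d r z) (bet S a d r z) g with hD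
  set P := P2 S a r z d g with hP
  set C := ∑ η, wt S a d r z η *
      ∑ x ∈ ηᶜ, bet S a d r z η x * dd g η x ^ 2 * sch S a r z d η x with hCdef
  have hc0 : 0 ≤ 8 * s / (3 * (1 - s)) := by positivity
  have hCC : 8 * s / (3 * (1 - s)) * C ≤ 8 * s / (3 * (1 - s)) * (4 * ((m : ℝ) - 1) * D + 3 * P) :=
    mul_le_mul_of_nonneg_left hC hc0
  have hA : 8 * s / (3 * (1 - s)) * (4 * ((m : ℝ) - 1)) ≤ 11 / 15 := by
    rw [div_mul_eq_mul_div, div_le_iff₀ (by positivity)]
    nlinarith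
  have hB3 : 8 * s / (3 * (1 - s)) * 3 ≤ 1 := by
    rw [div_mul_eq_mul_div, div_le_iff₀ (by positivity)]
    nlinarith
  have hAD : 8 * s / (3 * (1 - s)) * (4 * ((m : ℝ) - 1)) * D ≤ 11 / 15 * D :=
    mul_le_mul_of_nonneg_right hA hdir
  have hBP : 8 * s / (3 * (1 - s)) * 3 * P ≤ 1 * P := mul_le_mul_of_nonneg_right hB3 hP2
  have e : 8 * s / (3 * (1 - s)) * (4 * ((m : ℝ) - 1) * D + 3 * P) =
      8 * s / (3 * (1 - s)) * (4 * ((m : ℝ) - 1)) * D + 8 * s / (3 * (1 - s)) * 3 * P := by ring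
  linarith

end Pool.Agent.Helper44.GF
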