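import Pool.Agent.Helper44.GF.Defs

set_option autoImplicit false

namespace Pool.Agent.Helper44.GF

open Finset Filter Topology

/-- the general term -/
noncomputable def lr_a (ρ ε c u : ℝ) (l : ℤ) : ℝ :=
  c * ρ ^ (-((1 - ε) * (l : ℝ))) * (1 - Real.exp (-(u * ρ ^ (l : ℝ))))

theorem lr_nonneg {ρ ε c u : ℝ} (hρ : 1 < ρ) (hc : 0 < c) (hu : 0 ≤ u) (l : ℤ) :
    0 ≤ lr_a ρ ε c u l := by
  unfold lr_a
  have h0 : 0 < ρ := by linarith
  have h1 : 0 ≤ u * ρ ^ (l : ℝ) := by positivity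
  have h2 : Real.exp (-(u * ρ ^ (l : ℝ))) ≤ 1 := by
    rw [Real.exp_le_one_iff]; linarith
  have h3 : 0 ≤ 1 - Real.exp (-(u * ρ ^ (l : ℝ))) := by linarith
  positivity

/-- the summable bound -/
noncomputable def lr_b (ρ ε c K : ℝ) (l : ℤ) : ℝ :=
  c * ((ρ ^ (-(1 - ε))) ^ l.natAbs + K * (ρ ^ (-ε)) ^ l.natAbs)

theorem lr_le {ρ ε c u K : ℝ} (hρ : 1 < ρ) (hc : 0 < c) (hu : 0 ≤ u) (huK : u ≤ K) (l : ℤ) :
    lr_a ρ ε c u l ≤ lr_b ρ ε c K l := by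
  have h0 : 0 < ρ := by linarith
  have hK : 0 ≤ K := le_trans hu huK
  unfold lr_a lr_b
  rw [mul_assoc]
  apply mul_le_mul_of_nonneg_left _ hc.le
  obtain ⟨n, rfl | rfl⟩ := l.eq_nat_or_neg
  · have e1 : ρ ^ (-((1 - ε) * (((n : ℤ)) : ℝ))) = (ρ ^ (-(1 - ε))) ^ n := by
      rw [← Real.rpow_natCast, ← Real.rpow_mul h0.le]
      congr 1
      push_cast
      ring
    rw [e1, Int.natAbs_natCast]
    have h2 : 0 < Real.exp (-(u * ρ ^ (((n : ℤ)) : ℝ))) := Real.exp_pos _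
    have h3 : 0 < (ρ ^ (-(1 - ε))) ^ n := by positivity
    have h4 : 0 ≤ K * (ρ ^ (-ε)) ^ n := by positivity
    nlinarith
  · have e1 : ρ ^ (-((1 - ε) * ((-(n : ℤ) : ℤ) : ℝ))) * ρ ^ ((-(n : ℤ) : ℤ) : ℝ) =
        (ρ ^ (-ε)) ^ n := by
      rw [← Real.rpow_natCast, ← Real.rpow_mul h0.le, ← Real.rpow_add h0]
      congr 1
      push_cast
      ring
    rw [Int.natAbs_neg, Int.natAbs_natCast]
    have h1 : 1 - Real.exp (-(u * ρ ^ ((-(n : ℤ) : ℤ) : ℝ))) ≤ u * ρ ^ ((-(n : ℤ) : ℤ) : ℝ) := by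
      have := Real.add_one_le_exp (-(u * ρ ^ ((-(n : ℤ) : ℤ) : ℝ)))
      linarith
    have h3 : 0 < ρ ^ (-((1 - ε) * ((-(n : ℤ) : ℤ) : ℝ))) := by positivity
    have h5 : 0 < (ρ ^ (-(1 - ε))) ^ n := by positivity
    have h6 : 0 < (ρ ^ (-ε)) ^ n := by positivity
    calc ρ ^ (-((1 - ε) * ((-(n : ℤ) : ℤ) : ℝ))) *
          (1 - Real.exp (-(u * ρ ^ ((-(n : ℤ) : ℤ) : ℝ))))
        ≤ ρ ^ (-((1 - ε) * ((-(n : ℤ) : ℤ) : ℝ))) * (u * ρ ^ ((-(n : ℤ) : ℤ) : ℝ)) :=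
          mul_le_mul_of_nonneg_left h1 h3.le
      _ = u * (ρ ^ (-ε)) ^ n := by rw [← e1]; ring
      _ ≤ K * (ρ ^ (-ε)) ^ n := mul_le_mul_of_nonneg_right huK h6.le
      _ ≤ _ := by linarith

theorem lr_summable_b {ρ ε c K : ℝ} (hρ : 1 < ρ) (hε : 0 < ε) (hε1 : ε < 1) :
    Summable (lr_b ρ ε c K) := by
  have h0 : 0 < ρ := by linarith
  have hq1 : ρ ^ (-(1 - ε)) < 1 := Real.rpow_lt_one_of_one_lt_of_neg hρ (by linarith)
  have hq2 : ρ ^ (-ε) < 1 := Real.rpow_lt_one_of_one_lt_of_neg hρ (by linarith)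
  have s1 : Summable fun n : ℕ => (ρ ^ (-(1 - ε))) ^ n :=
    summable_geometric_of_lt_one (by positivity) hq1
  have s2 : Summable fun n : ℕ => (ρ ^ (-ε)) ^ n :=
    summable_geometric_of_lt_one (by positivity) hq2
  have s3 : Summable fun n : ℕ => c * ((ρ ^ (-(1 - ε))) ^ n + K * (ρ ^ (-ε)) ^ n) :=
    (s1.add (s2.mul_left K)).mul_left c
  apply Summable.of_nat_of_neg
  · refine s3.congr ?_
    intro n
    unfold lr_b
    rw [Int.natAbs_natCast]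
  · refine s3.congr ?_
    intro n
    unfold lr_b
    rw [Int.natAbs_neg, Int.natAbs_natCast]

theorem lr_summable {ρ ε c u : ℝ} (hρ : 1 < ρ) (hε : 0 < ε) (hε1 : ε < 1) (hc : 0 < c)
    (hu : 0 ≤ u) : Summable (lr_a ρ ε c u) :=
  Summable.of_nonneg_of_le (lr_nonneg hρ hc hu) (lr_le hρ hc hu le_rfl)
    (lr_summable_b hρ hε hε1)

theorem st_LR : ST_LR := by
  intro ρ ε c hρ hε hε1 hc
  have h0 : 0 < ρ := by linarith
  have hs : ∀ u, 0 ≤ u → Summable (lr_a ρ ε c u) := fun u hu => lr_summable hρ hε hε1 hc hu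
  refine ⟨fun u hu => hs u hu, ?_, ?_, ?_, ?_, ?_⟩
  · intro x hx
    have hx0 : 0 ≤ x := hx
    have h1 : ContinuousOn (fun u => ∑' l : ℤ, lr_a ρ ε c u l) (Set.Icc 0 (x + 1)) := by
      apply continuousOn_tsum (u := lr_b ρ ε c (x + 1))
      · intro l
        unfold lr_a
        fun_prop
      · exact lr_summable_b hρ hε hε1
      · intro l u hu
        rw [Real.norm_of_nonneg (lr_nonneg hρ hc hu.1 l)]
        exact lr_le hρ hc hu.1 hu.2 l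
    have h2 := h1 x ⟨hx0, by linarith⟩
    refine h2.mono_of_mem_nhdsWithin ?_
    rw [mem_nhdsWithin]
    refine ⟨Set.Iio (x + 1), isOpen_Iio, by simp, ?_⟩
    intro y hy
    exact ⟨hy.2, le_of_lt hy.1⟩
  · intro u v hu huv
    refine Summable.tsum_le_tsum ?_ (hs u hu) (hs v (le_trans hu huv))
    intro l
    have h1 : 0 < ρ ^ (l : ℝ) := by positivity
    have h2 : Real.exp (-(v * ρ ^ (l : ℝ))) ≤ Real.exp (-(u * ρ ^ (l : ℝ))) := by
      apply Real.exp_le_exp.mpr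
      nlinarith
    have h3 : 0 < ρ ^ (-((1 - ε) * (l : ℝ))) := by positivity
    apply mul_le_mul_of_nonneg_left _ (by positivity)
    linarith
  · intro u hu
    unfold Lr
    rw [← tsum_mul_left]
    rw [← (Equiv.addRight (1 : ℤ)).tsum_eq (fun l : ℤ => ρ ^ (1 - ε) *
      (c * ρ ^ (-((1 - ε) * (l : ℝ))) * (1 - Real.exp (-(u * ρ ^ (l : ℝ))))))]
    refine tsum_congr fun l => ?_
    rw [Equiv.coe_addRight]
    push_cast
    have e1 : ρ ^ (1 - ε) * (c * ρ ^ (-((1 - ε) * ((l : ℝ) + 1)))) =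
        c * ρ ^ (-((1 - ε) * (l : ℝ))) := by
      have : ρ ^ (1 - ε) * ρ ^ (-((1 - ε) * ((l : ℝ) + 1))) = ρ ^ (-((1 - ε) * (l : ℝ))) := by
        rw [← Real.rpow_add h0]
        congr 1
        ring
      rw [← this]
      ring
    have e2 : ρ * u * ρ ^ (l : ℝ) = u * ρ ^ ((l : ℝ) + 1) := by
      rw [Real.rpow_add h0, Real.rpow_one]
      ring
    rw [e2, ← mul_assoc, e1]
  · have h1 : 0 < lr_a ρ ε c 1 0 := by
      unfold lr_a
      have h2 : Real.exp (-((1 : ℝ) * ρ ^ (((0 : ℤ)) : ℝ))) < 1 := by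
        rw [Real.exp_lt_one_iff]
        have : 0 < ρ ^ (((0 : ℤ)) : ℝ) := by positivity
        linarith
      have h3 : 0 < ρ ^ (-((1 - ε) * (((0 : ℤ)) : ℝ))) := by positivity
      have h4 : 0 < 1 - Real.exp (-((1 : ℝ) * ρ ^ (((0 : ℤ)) : ℝ))) := by linarith
      positivity
    exact Summable.tsum_pos (hs 1 zero_le_one) (lr_nonneg hρ hc zero_le_one) 0 h1
  · unfold Lr
    refine Eq.trans (tsum_congr (g := fun _ : ℤ => (0 : ℝ)) fun l => ?_) tsum_zero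
    rw [zero_mul, neg_zero, Real.exp_zero, sub_self, mul_zero]

end Pool.Agent.Helper44.GF
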